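import Pool.Agent.Lib.MP_3240be_co.H51.Defs

/-! # Row NF1 of board TREES -/

set_option autoImplicit false

namespace MP3240T

open Finset

namespace H84

/-- A function that is constant along the edges of a connected graph is constant. -/
theorem const_of_conn {X α : Type} {G : SimpleGraph X} (hG : G.Connected) (g : X → α)
    (h : ∀ i j, G.Adj i j → g i = g j) (i j : X) : g i = g j := by
  obtain ⟨p⟩ := hG.preconnected i j
  induction p with
  | nil => rfl
  | cons hadj _ ih => exact (h _ _ hadj).trans ih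

/-- No embedding of `T'` into a part of the graph with a small hub set `S`: every edge has exactly
one end in `S`. -/
theorem no_hub {n h : ℕ} {T' : SimpleGraph (Fin (n + 1))} {κ : Fin (n + 1) → Bool}
    (hκ : ∀ i j, T'.Adj i j → κ i ≠ κ j) (hT : T'.Connected)
    (h1 : h < (univ.filter (fun x => κ x = true)).card)
    (h2 : h < (univ.filter (fun x => κ x = false)).card) {V : Type} (f : Fin (n + 1) → V)
    (hf : Function.Injective f) (S : Finset V) (hS : S.card ≤ h)
    (he : ∀ i j, T'.Adj i j → (f i ∈ S ↔ f j ∉ S)) : False := by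
  classical
  have hc := const_of_conn hT (fun i => (κ i == decide (f i ∈ S))) (by
    intro i j hij
    have a1 := hκ i j hij
    have a2 := he i j hij
    by_cases a3 : f i ∈ S
    · have a4 : f j ∉ S := a2.1 a3
      simp only [a3, a4, decide_true, decide_false]
      cases hi : κ i <;> cases hj : κ j <;> simp_all
    · have a4 : f j ∈ S := by
        by_contra a5
        exact a3 (a2.2 a5)
      simp only [a3, a4, decide_true, decide_false]
      cases hi : κ i <;> cases hj : κ j <;> simp_all)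
  have hcl : ∀ b : Bool, (∀ i, κ i = b → f i ∈ S) →
      (univ.filter (fun x => κ x = b)).card ≤ h := by
    intro b hb
    refine le_trans ?_ hS
    refine card_le_card_of_injOn f ?_ hf.injOn
    intro x hx
    exact hb x (by simpa using hx)
  by_cases hd : (κ 0 == decide (f 0 ∈ S)) = true
  · refine absurd (hcl true ?_) (not_le.2 h1)
    intro i hi
    have a1 := (hc i 0).trans hd
    simpa [hi] using a1
  · refine absurd (hcl false ?_) (not_le.2 h2)
    intro i hi
    have a1 := hc i 0
    by_contra a2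
    apply hd
    rw [← a1]
    simp [hi, a2]

/-- the red edges (one direction) -/
def red {h n : ℕ} : VI h n → VI h n → Bool
  | .y _, .z none _ _ => true
  | .y _, .q _ _ => true
  | .q _ _, .z none _ _ => true
  | .p (some _) _ _, .z _ _ _ => true
  | _, _ => false

/-- the colouring -/
def col {h n : ℕ} (x y : VI h n) : Bool := red x y || red y x

/-- component label for red -/
def lr {h n : ℕ} : VI h n → Option (Option (Fin h × Fin 3))
  | .y _ => some none
  | .w _ _ => none
  | .p none _ _ => none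
  | .p (some i) j _ => some (some (i, j))
  | .z none _ _ => some none
  | .z (some i) j _ => some (some (i, j))
  | .q _ _ => some none

/-- component label for blue -/
def lb {h n : ℕ} : VI h n → Option (Fin h ⊕ (Fin 3 ⊕ ℕ))
  | .y i => some (.inl i)
  | .w i _ => some (.inl i)
  | .p none j _ => some (.inr (.inl j))
  | .p (some _) _ _ => none
  | .z none j _ => some (.inr (.inl j))
  | .z (some i) _ _ => some (.inl i)
  | .q m _ => some (.inr (.inr m))

theorem lr_eq {h n k : ℕ} (u v : VI h n) (huv : (cls (FI h n k) col true).Adj u v) :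
    lr u = lr v := by
  obtain ⟨⟨_, h1⟩, h2, _⟩ := huv
  rcases u with i | ⟨i, l⟩ | ⟨s, j, l⟩ | ⟨s, j, t⟩ | ⟨m, x⟩ <;>
  rcases v with i' | ⟨i', l'⟩ | ⟨s', j', l'⟩ | ⟨s', j', t'⟩ | ⟨m', x'⟩ <;>
  (try rcases s with _ | s) <;> (try rcases s' with _ | s') <;>
  simp_all [lr, col, red, relI]

theorem lb_eq {h n k : ℕ} (u v : VI h n) (huv : (cls (FI h n k) col false).Adj u v) :
    lb u = lb v := by
  obtain ⟨⟨_, h1⟩, h2, _⟩ := huv
  rcases u with i | ⟨i, l⟩ | ⟨s, j, l⟩ | ⟨s, j, t⟩ | ⟨m, x⟩ <;>
  rcases v with i' | ⟨i', l'⟩ | ⟨s', j', l'⟩ | ⟨s', j', t'⟩ | ⟨m', x'⟩ <;>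
  (try rcases s with _ | s) <;> (try rcases s' with _ | s') <;>
  simp_all [lb, col, red, relI]
  rcases h1 with h1 | h1
  · exact h1.1
  · exact h1.1.symm

theorem lr_none {h n k : ℕ} (u v : VI h n) (huv : (cls (FI h n k) col true).Adj u v) :
    lr u ≠ none := by
  obtain ⟨⟨_, h1⟩, h2, _⟩ := huv
  rcases u with i | ⟨i, l⟩ | ⟨s, j, l⟩ | ⟨s, j, t⟩ | ⟨m, x⟩ <;>
  rcases v with i' | ⟨i', l'⟩ | ⟨s', j', l'⟩ | ⟨s', j', t'⟩ | ⟨m', x'⟩ <;>
  (try rcases s with _ | s) <;> (try rcases s' with _ | s') <;>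
  simp_all [lr, col, red, relI]

theorem lb_none {h n k : ℕ} (u v : VI h n) (huv : (cls (FI h n k) col false).Adj u v) :
    lb u ≠ none := by
  obtain ⟨⟨_, h1⟩, h2, _⟩ := huv
  rcases u with i | ⟨i, l⟩ | ⟨s, j, l⟩ | ⟨s, j, t⟩ | ⟨m, x⟩ <;>
  rcases v with i' | ⟨i', l'⟩ | ⟨s', j', l'⟩ | ⟨s', j', t'⟩ | ⟨m', x'⟩ <;>
  (try rcases s with _ | s) <;> (try rcases s' with _ | s') <;>
  simp_all [lb, col, red, relI]

/-- The hubs of the red component `(i, j)`. -/
theorem red_hub {h n k : ℕ} (i : Fin h) (j : Fin 3) (u v : VI h n)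
    (huv : (cls (FI h n k) col true).Adj u v) (hu : lr u = some (some (i, j))) :
    (∃ l, u = .p (some i) j l) ↔ ¬ ∃ l, v = .p (some i) j l := by
  obtain ⟨⟨_, h1⟩, h2, _⟩ := huv
  rcases u with i1 | ⟨i1, l⟩ | ⟨s, j1, l⟩ | ⟨s, j1, t⟩ | ⟨m, x⟩ <;>
  rcases v with i' | ⟨i', l'⟩ | ⟨s', j', l'⟩ | ⟨s', j', t'⟩ | ⟨m', x'⟩ <;>
  (try rcases s with _ | s) <;> (try rcases s' with _ | s') <;>
  simp_all [lr, col, red, relI]

/-- The hubs of the blue component `Y'_i`. -/
theorem blue_hub1 {h n k : ℕ} (i : Fin h) (u v : VI h n)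
    (huv : (cls (FI h n k) col false).Adj u v) (hu : lb u = some (.inl i)) :
    (u = .y i ∨ ∃ l, u = .w i l) ↔ ¬ (v = .y i ∨ ∃ l, v = .w i l) := by
  obtain ⟨⟨_, h1⟩, h2, _⟩ := huv
  rcases u with i1 | ⟨i1, l⟩ | ⟨s, j1, l⟩ | ⟨s, j1, t⟩ | ⟨m, x⟩ <;>
  rcases v with i' | ⟨i', l'⟩ | ⟨s', j', l'⟩ | ⟨s', j', t'⟩ | ⟨m', x'⟩ <;>
  (try rcases s with _ | s) <;> (try rcases s' with _ | s') <;>
  simp_all [lb, col, red, relI]

/-- The hubs of the blue component of the partners of `Y_0`. -/
theorem blue_hub2 {h n k : ℕ} (j : Fin 3) (u v : VI h n)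
    (huv : (cls (FI h n k) col false).Adj u v) (hu : lb u = some (.inr (.inl j))) :
    (∃ l, u = .p none j l) ↔ ¬ ∃ l, v = .p none j l := by
  obtain ⟨⟨_, h1⟩, h2, _⟩ := huv
  rcases u with i1 | ⟨i1, l⟩ | ⟨s, j1, l⟩ | ⟨s, j1, t⟩ | ⟨m, x⟩ <;>
  rcases v with i' | ⟨i', l'⟩ | ⟨s', j', l'⟩ | ⟨s', j', t'⟩ | ⟨m', x'⟩ <;>
  (try rcases s with _ | s) <;> (try rcases s' with _ | s') <;>
  simp_all [lb, col, red, relI]

theorem lb_q {h n : ℕ} (m : ℕ) (u : VI h n) (hu : lb u = some (.inr (.inr m))) :
    ∃ x, u = .q m x := by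
  rcases u with i1 | ⟨i1, l⟩ | ⟨s, j1, l⟩ | ⟨s, j1, t⟩ | ⟨m', x⟩ <;>
  (try rcases s with _ | s) <;> simp_all [lb]

/-- The map of the red component of `Y_0` into `SH h k`. -/
def gm {h n : ℕ} (k : ℕ) : VI h n → Fin h ⊕ (ℕ × Option (Fin k))
  | .y i => .inl i
  | .q m x => .inr (4 * (m * n + x.val), none)
  | .z _ j t =>
    if h0 : j = 0 then
      (if hk : 0 < k then .inr (4 * (t / k), some ⟨t % k, Nat.mod_lt _ hk⟩)
        else .inr (4 * t + 3, none))
    else .inr (4 * t + j.val, none)
  | .w _ _ => .inr (0, none)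
  | .p _ _ _ => .inr (0, none)

theorem mn_inj {n m m' : ℕ} {x x' : Fin n} (h : m * n + x.val = m' * n + x'.val) :
    m = m' ∧ x = x' := by
  have hx := x.isLt
  have hx' := x'.isLt
  have hn : 0 < n := by omega
  have h1 : (m * n + x.val) / n = m := by
    rw [mul_comm, Nat.mul_add_div hn, Nat.div_eq_of_lt hx, add_zero]
  have h2 : (m' * n + x'.val) / n = m' := by
    rw [mul_comm, Nat.mul_add_div hn, Nat.div_eq_of_lt hx', add_zero]
  have h3 : m = m' := by rw [← h1, ← h2, h]
  subst h3
  exact ⟨rfl, Fin.ext (by omega)⟩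

theorem gm_inj {h n k : ℕ} (u v : VI h n) (hu : lr u = some none) (hv : lr v = some none)
    (huv : gm k u = gm k v) : u = v := by
  rcases u with i1 | ⟨i1, l⟩ | ⟨s, j, l⟩ | ⟨s, j, t⟩ | ⟨m, x⟩ <;>
  rcases v with i' | ⟨i', l'⟩ | ⟨s', j', l'⟩ | ⟨s', j', t'⟩ | ⟨m', x'⟩ <;>
  (try rcases s with _ | s) <;> (try rcases s' with _ | s') <;>
  simp only [lr, reduceCtorEq, Option.some.injEq] at hu hv
  · simp only [gm, Sum.inl.injEq] at huv
    rw [huv]
  · exfalso
    simp only [gm] at huv
    split_ifs at huv <;> simp at huv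
  · exfalso
    simp only [gm, reduceCtorEq] at huv
  · exfalso
    simp only [gm] at huv
    split_ifs at huv <;> simp at huv
  · simp only [gm] at huv
    have hj := j.isLt
    have hj' := j'.isLt
    split_ifs at huv with a1 a2 a3 a4 a5 a6 <;>
      simp only [Sum.inr.injEq, Prod.mk.injEq, Option.some.injEq, Fin.mk.injEq, reduceCtorEq,
        and_false, and_true] at huv
    · have b1 : t / k = t' / k := by omega
      have b2 : t = t' := by
        rw [← Nat.div_add_mod t k, ← Nat.div_add_mod t' k, b1, huv.2]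
      rw [b2, a1, a3]
    · have b2 : t = t' := by omega
      rw [b2, a1, a4]
    · exfalso
      have : j'.val < 3 := hj'
      omega
    · exfalso
      omega
    · have b3 : j.val ≠ 0 := fun hh => a1 (Fin.ext hh)
      have b4 : j'.val ≠ 0 := fun hh => a5 (Fin.ext hh)
      have b2 : t = t' := by omega
      have b5 : j = j' := Fin.ext (by omega)
      rw [b2, b5]
  · exfalso
    simp only [gm] at huv
    split_ifs at huv with a1 a2 <;>
      simp only [Sum.inr.injEq, Prod.mk.injEq, reduceCtorEq, and_false, and_true] at huv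
    · omega
    · have hj := j.isLt
      have b3 : j.val ≠ 0 := fun hh => a1 (Fin.ext hh)
      omega
  · exfalso
    simp only [gm, reduceCtorEq] at huv
  · exfalso
    simp only [gm] at huv
    split_ifs at huv with a1 a2 <;>
      simp only [Sum.inr.injEq, Prod.mk.injEq, reduceCtorEq, and_false, and_true] at huv
    · omega
    · have hj := j'.isLt
      have b3 : j'.val ≠ 0 := fun hh => a1 (Fin.ext hh)
      omega
  · simp only [gm, Sum.inr.injEq, Prod.mk.injEq, and_true] at huv
    obtain ⟨b1, b2⟩ := mn_inj (Nat.eq_of_mul_eq_mul_left (by norm_num) huv)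
    rw [b1, b2]

theorem gm_adj1 {h n k : ℕ} (u v : VI h n) (hu : lr u = some none)
    (hne : u ≠ v) (h1 : relI k u v) (h2 : (col u v : Bool) = true) :
    (SH h k).Adj (gm k u) (gm k v) := by
  rcases u with i1 | ⟨i1, l⟩ | ⟨s, j, l⟩ | ⟨s, j, t⟩ | ⟨m, x⟩ <;>
  rcases v with i' | ⟨i', l'⟩ | ⟨s', j', l'⟩ | ⟨s', j', t'⟩ | ⟨m', x'⟩ <;>
  (try rcases s with _ | s) <;> (try rcases s' with _ | s') <;>
  simp only [lr, reduceCtorEq, relI, col, red, Bool.or_false, Option.some.injEq] at hu h1 h2
  · simp only [SH, gm]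
    split_ifs <;> simp
  · simp only [SH, gm]
    simp
  · obtain ⟨rfl, hk, h3⟩ := h1
    simp only [SH, gm, hk, dif_pos]
    simp [h3]

theorem gm_adj {h n k : ℕ} (u v : VI h n) (hu : lr u = some none)
    (huv : (cls (FI h n k) col true).Adj u v) : (SH h k).Adj (gm k u) (gm k v) := by
  have hv : lr v = some none := (lr_eq u v huv).symm.trans hu
  obtain ⟨⟨hne, h1⟩, h2, h3⟩ := huv
  rcases h1 with h1 | h1
  · exact gm_adj1 u v hu hne h1 h2
  · exact (gm_adj1 v u hv hne.symm h1 h3).symm

end H84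

open H84 in
theorem nf1_proof : NF1Statement := by
  classical
  intro n h k T' κ hκ hT h1 h2 hSH hArr
  obtain ⟨b, f, hf, hadj⟩ := hArr col (fun x y => Bool.or_comm _ _)
  have hex : ∃ j, T'.Adj 0 j := by
    have hc : 0 < (univ.filter (fun x => κ x = !(κ 0))).card := by
      cases κ 0
      · exact lt_of_le_of_lt (Nat.zero_le _) h1
      · exact lt_of_le_of_lt (Nat.zero_le _) h2
    obtain ⟨x, hx⟩ := card_pos.1 hc
    have hx' : κ x = !(κ 0) := by simpa using hx
    have hne : (0 : Fin (n + 1)) ≠ x := by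
      rintro rfl
      cases hh : κ 0 <;> simp [hh] at hx'
    obtain ⟨p⟩ := hT.preconnected 0 x
    cases p with
    | nil => exact absurd rfl hne
    | cons hadj _ => exact ⟨_, hadj⟩
  obtain ⟨j0, hj0⟩ := hex
  cases b with
  | true =>
    have hl := const_of_conn hT (fun i => lr (f i)) (fun i j hij => lr_eq _ _ (hadj i j hij))
    rcases hL : lr (f 0) with _ | _ | ⟨i, j⟩
    · exact lr_none _ _ (hadj 0 j0 hj0) hL
    · apply hSH
      refine ⟨fun x => gm k (f x), ?_, ?_⟩
      · intro x x' hxx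
        exact hf (gm_inj _ _ ((hl x 0).trans hL) ((hl x' 0).trans hL) hxx)
      · intro x x' hxx
        exact gm_adj _ _ ((hl x 0).trans hL) (hadj x x' hxx)
    · refine no_hub hκ hT h1 h2 f hf (univ.image (fun l => VI.p (some i) j l)) ?_ ?_
      · refine card_image_le.trans ?_
        simp
      · intro x x' hxx
        have a1 := red_hub i j _ _ (hadj x x' hxx) ((hl x 0).trans hL)
        simp only [mem_image, mem_univ, true_and]
        constructor
        · rintro ⟨l, hl'⟩ ⟨l', hl''⟩
          exact a1.1 ⟨l, hl'.symm⟩ ⟨l', hl''.symm⟩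
        · intro a2
          obtain ⟨l, a3⟩ := a1.2 (by
            rintro ⟨l, a3⟩
            exact a2 ⟨l, a3.symm⟩)
          exact ⟨l, a3.symm⟩
  | false =>
    have hl := const_of_conn hT (fun i => lb (f i)) (fun i j hij => lb_eq _ _ (hadj i j hij))
    rcases hL : lb (f 0) with _ | i | j | m
    · exact lb_none _ _ (hadj 0 j0 hj0) hL
    · refine no_hub hκ hT h1 h2 f hf (insert (VI.y i) (univ.image (fun l => VI.w i l))) ?_ ?_
      · refine (card_insert_le _ _).trans ?_
        have a1 : (univ.image (fun l => (VI.w i l : VI h n))).card ≤ h - 1 := by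
          refine card_image_le.trans ?_
          simp
        have a2 := i.isLt
        omega
      · intro x x' hxx
        have a1 := blue_hub1 i _ _ (hadj x x' hxx) ((hl x 0).trans hL)
        simp only [mem_insert, mem_image, mem_univ, true_and]
        have a2 : ∀ u : VI h n, (u = .y i ∨ ∃ l, VI.w i l = u) ↔ (u = .y i ∨ ∃ l, u = .w i l) := by
          intro u
          constructor
          · rintro (a | ⟨l, a⟩)
            · exact Or.inl a
            · exact Or.inr ⟨l, a.symm⟩
          · rintro (a | ⟨l, a⟩)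
            · exact Or.inl a
            · exact Or.inr ⟨l, a.symm⟩
        rw [a2, a2]
        exact a1
    · refine no_hub hκ hT h1 h2 f hf (univ.image (fun l => VI.p none j l)) ?_ ?_
      · refine card_image_le.trans ?_
        simp
      · intro x x' hxx
        have a1 := blue_hub2 j _ _ (hadj x x' hxx) ((hl x 0).trans hL)
        simp only [mem_image, mem_univ, true_and]
        constructor
        · rintro ⟨l, hl'⟩ ⟨l', hl''⟩
          exact a1.1 ⟨l, hl'.symm⟩ ⟨l', hl''.symm⟩
        · intro a2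
          obtain ⟨l, a3⟩ := a1.2 (by
            rintro ⟨l, a3⟩
            exact a2 ⟨l, a3.symm⟩)
          exact ⟨l, a3.symm⟩
    · have hq : ∀ x, ∃ y : Fin n, f x = .q m y := fun x => lb_q m _ ((hl x 0).trans hL)
      choose g hg using hq
      have hgi : Function.Injective g := by
        intro x x' hxx
        exact hf (by rw [hg, hg, hxx])
      have := Fintype.card_le_of_injective g hgi
      simp at this

end MP3240T
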