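import Pool.Agent.Lib.MP_3240be_co.H51.Defs

/-! # Row SPL of board TREES -/

set_option autoImplicit false

namespace MP3240T

open Finset

namespace H84

/-- If `R` has at least `a` elements and is full in `G`, then `T` embeds into `G`. -/
theorem emb_of_full (hE : ExtStatement) {n a : ℕ} (T : SimpleGraph (Fin n)) (κ : Fin n → Bool)
    (hκ : ∀ i j, T.Adj i j → κ i ≠ κ j) (ha : (clA κ).card = a) {V : Type} (G : SimpleGraph V)
    (R : Finset V) (hR : a ≤ R.card) (hF : Full G R) : Emb T G := by
  classical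
  have hle : Fintype.card {x // x ∈ clA κ} ≤ Fintype.card {x // x ∈ R} := by
    simpa [ha] using hR
  obtain ⟨e⟩ := Function.Embedding.nonempty_of_card_le hle
  have hV : Nonempty V := by
    obtain ⟨v, -⟩ := hF.nonempty
    exact ⟨v⟩
  let v0 : V := hV.some
  let φ : Fin n → V := fun i => if h : i ∈ clA κ then (e ⟨i, h⟩ : V) else v0
  have hφ : ∀ i (h : i ∈ clA κ), φ i = (e ⟨i, h⟩ : V) := fun i h => dif_pos h
  refine hE V G n T (clA κ) φ ?_ ?_ ?_ ?_
  · intro i hi j hj hij
    rw [hφ i hi, hφ j hj] at hij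
    have := e.injective (Subtype.ext hij)
    exact congrArg Subtype.val this
  · intro i hi j hj hij
    simp only [clA, mem_filter, mem_univ, true_and] at hi hj
    exact absurd (hi.trans hj.symm) (hκ i j hij)
  · intro i hi j hj hij
    simp only [clA, mem_filter, mem_univ, true_and, Bool.not_eq_true] at hi hj
    exact absurd (hi.trans hj.symm) (hκ i j hij)
  · intro u _
    refine hF.mono ?_
    intro z hz i hi _
    rw [hφ i hi]
    exact hz _ (e ⟨i, hi⟩).2

theorem full_of_pattern {V : Type} (F : SimpleGraph V) (c : V → V → Bool)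
    (hc : ∀ x y, c x y = c y x) (S : Finset V) (z : ℕ → V) (hz : Function.Injective z) (b : Bool)
    (I : Set ℕ) (hI : I.Infinite) (hF : ∀ y ∈ S, ∀ t ∈ I, F.Adj y (z t))
    (hb : ∀ y ∈ S, ∀ t ∈ I, c y (z t) = b) : Full (cls F c b) S := by
  refine (hI.image (f := z) hz.injOn).mono ?_
  rintro _ ⟨t, ht, rfl⟩ y hy
  exact ⟨hF y hy t ht, hb y hy t ht, (hc _ _).trans (hb y hy t ht)⟩

end H84

theorem spl_proof (hE : ExtStatement) : SplStatement := by
  classical
  intro n a T κ hκ ha V F c hc hno P z hz hP hadj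
  have key : ∀ R ⊆ P, {t | ∀ y ∈ P, (c y (z t) = true ↔ y ∈ R)}.Infinite →
        R.card + 1 = a ∧ ∃ C : Finset V, C.card + 1 = a ∧ Disjoint R C ∧
        (∀ x, x ∈ R ∨ x ∈ C ↔ x ∈ P) ∧ Full (cls F c true) R ∧ Full (cls F c false) C := by
    intro R hR hI
    have h1 : Full (cls F c true) R :=
      H84.full_of_pattern F c hc R z hz true _ hI (fun y hy t _ => hadj y (hR hy) t)
        (fun y hy t ht => (ht y (hR hy)).2 hy)
    have h2 : Full (cls F c false) (P \ R) :=
      H84.full_of_pattern F c hc (P \ R) z hz false _ hI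
        (fun y hy t _ => hadj y (mem_sdiff.1 hy).1 t)
        (fun y hy t ht => by
          have h3 := (ht y (mem_sdiff.1 hy).1).not.2 (mem_sdiff.1 hy).2
          simpa using h3)
    have h3 : R.card < a := by
      by_contra h
      exact hno true (H84.emb_of_full hE T κ hκ ha _ R (not_lt.1 h) h1)
    have h4 : (P \ R).card < a := by
      by_contra h
      exact hno false (H84.emb_of_full hE T κ hκ ha _ (P \ R) (not_lt.1 h) h2)
    have h5 : (P \ R).card + R.card = P.card := card_sdiff_add_card_eq_card hR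
    refine ⟨by omega, P \ R, by omega, disjoint_sdiff, ?_, h1, h2⟩
    intro x
    constructor
    · rintro (h | h)
      · exact hR h
      · exact (mem_sdiff.1 h).1
    · intro h
      by_cases hx : x ∈ R
      · exact Or.inl hx
      · exact Or.inr (mem_sdiff.2 ⟨h, hx⟩)
  refine ⟨?_, key⟩
  let g : ℕ → {S // S ∈ P.powerset} := fun t =>
    ⟨P.filter (fun y => c y (z t) = true), mem_powerset.2 (filter_subset _ _)⟩
  obtain ⟨S, hS⟩ := Finite.exists_infinite_fiber g
  have hS' : (g ⁻¹' {S}).Infinite := Set.infinite_coe_iff.1 hS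
  have hI : {t | ∀ y ∈ P, (c y (z t) = true ↔ y ∈ S.1)}.Infinite := by
    refine hS'.mono ?_
    intro t ht y hy
    have h1 : P.filter (fun y => c y (z t) = true) = S.1 := congrArg Subtype.val ht
    rw [← h1]
    simp [hy]
  obtain ⟨h1, C, h2, h3, h4, h5, h6⟩ := key S.1 (mem_powerset.1 S.2) hI
  exact ⟨S.1, C, h1, h2, h3, h4, h5, h6⟩

end MP3240T
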